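import Pool.Agent.Lib.MP_64bee1_co.UN.All

namespace Pool.Agent.Results.MP_64bee1_co.AllLargeN

open Pool.Agent.Lib.MP_64bee1_co

/-- For all large `n` and every `k ≥ 3` the number of inversions with gap congruent to one
modulo `k` is unimodal. -/
theorem result :
    ∃ n0 : ℕ, ∀ n k : ℕ, n0 ≤ n → 3 ≤ k →
      ∃ c : ℕ,
        (∀ i j : ℕ, i ≤ j → j ≤ c →
          (Finset.univ.filter (fun w : Equiv.Perm (Fin (n+1)) =>
              ((Finset.univ : Finset (Fin (n+1) × Fin (n+1))).filter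
                (fun p => p.1 < p.2 ∧ w p.2 < w p.1 ∧ ((p.2 : ℕ) - (p.1 : ℕ)) % k = 1)).card = i)).card
          ≤
          (Finset.univ.filter (fun w : Equiv.Perm (Fin (n+1)) =>
              ((Finset.univ : Finset (Fin (n+1) × Fin (n+1))).filter
                (fun p => p.1 < p.2 ∧ w p.2 < w p.1 ∧ ((p.2 : ℕ) - (p.1 : ℕ)) % k = 1)).card = j)).card) ∧
        (∀ i j : ℕ, c ≤ i → i ≤ j →
          (Finset.univ.filter (fun w : Equiv.Perm (Fin (n+1)) =>
              ((Finset.univ : Finset (Fin (n+1) × Fin (n+1))).filter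
                (fun p => p.1 < p.2 ∧ w p.2 < w p.1 ∧ ((p.2 : ℕ) - (p.1 : ℕ)) % k = 1)).card = j)).card
          ≤
          (Finset.univ.filter (fun w : Equiv.Perm (Fin (n+1)) =>
              ((Finset.univ : Finset (Fin (n+1) × Fin (n+1))).filter
                (fun p => p.1 < p.2 ∧ w p.2 < w p.1 ∧ ((p.2 : ℕ) - (p.1 : ℕ)) % k = 1)).card = i)).card) := by
  obtain ⟨n0, h⟩ := UN.all_large
  refine ⟨n0, fun n k hn hk => ?_⟩
  have h1 := h n k hn hk
  have e : ∀ w : Equiv.Perm (Fin (n + 1)), iv (UN.Adj (n + 1) k) w =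
      ((Finset.univ : Finset (Fin (n+1) × Fin (n+1))).filter
        (fun p => p.1 < p.2 ∧ w p.2 < w p.1 ∧ ((p.2 : ℕ) - (p.1 : ℕ)) % k = 1)).card := by
    intro w
    unfold iv
    congr 1
    refine Finset.filter_congr fun p _ => ?_
    tauto
  simpa only [cnt, e] using h1

end Pool.Agent.Results.MP_64bee1_co.AllLargeN
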