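import Pool.Agent.Lib.MP_64bee1_co.OddK

namespace Pool.Agent.Results.MP_64bee1_co.OddHalf

open Pool.Agent.Lib.MP_64bee1_co

/-- Unimodality of the number of inversions with gap congruent to one modulo `k` for odd `k` and
all `n` with `k < n ≤ 2 k`. -/
theorem result :
    ∀ n k : ℕ, 3 ≤ k → Odd k → k < n → n ≤ 2 * k →
      ∃ c : ℕ,
        (∀ i j : ℕ, i ≤ j → j ≤ c →
          (Finset.univ.filter (fun w : Equiv.Perm (Fin (n+1)) =>
              ((Finset.univ : Finset (Fin (n+1) × Fin (n+1))).filter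
                (fun p => p.1 < p.2 ∧ w p.2 < w p.1 ∧ ((p.2 : ℕ) - (p.1 : ℕ)) % k = 1)).card = i)).card
          ≤
          (Finset.univ.filter (fun w : Equiv.Perm (Fin (n+1)) =>
              ((Finset.univ : Finset (Fin (n+1) × Fin (n+1))).filter
                (fun p => p.1 < p.2 ∧ w p.2 < w p.1 ∧ ((p.2 : ℕ) - (p.1 : ℕ)) % k = 1)).card = j)).card) ∧
        (∀ i j : ℕ, c ≤ i → i ≤ j →
          (Finset.univ.filter (fun w : Equiv.Perm (Fin (n+1)) =>
              ((Finset.univ : Finset (Fin (n+1) × Fin (n+1))).filter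
                (fun p => p.1 < p.2 ∧ w p.2 < w p.1 ∧ ((p.2 : ℕ) - (p.1 : ℕ)) % k = 1)).card = j)).card
          ≤
          (Finset.univ.filter (fun w : Equiv.Perm (Fin (n+1)) =>
              ((Finset.univ : Finset (Fin (n+1) × Fin (n+1))).filter
                (fun p => p.1 < p.2 ∧ w p.2 < w p.1 ∧ ((p.2 : ℕ) - (p.1 : ℕ)) % k = 1)).card = i)).card) := by
  intro n k hk hodd hkn hn
  have h := unimodal_of_uni (Gap n k) (uni_odd (by omega) hodd hkn hn)
  have e : ∀ w : Equiv.Perm (Fin (n + 1)), iv (Gap n k) w =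
      ((Finset.univ : Finset (Fin (n+1) × Fin (n+1))).filter
        (fun p => p.1 < p.2 ∧ w p.2 < w p.1 ∧ ((p.2 : ℕ) - (p.1 : ℕ)) % k = 1)).card := by
    intro w
    unfold iv
    congr 1
    refine Finset.filter_congr fun p _ => ?_
    unfold Gap
    tauto
  simpa only [e] using h

end Pool.Agent.Results.MP_64bee1_co.OddHalf
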